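import Mathlib
import Pool.Agent.Q106.FinConn

/-!
# MP_9a7beb_co, Q1: the outer-connected domination number of the line graph can be larger than
that of the middle graph

The counterexample has 10 vertices and 15 edges: two copies of `K₄`, on `{0,1,2,3}` and on
`{6,7,8,9}`, joined by the path `0, 4, 5, 6`.
-/

set_option autoImplicit false

namespace Pool.Agent.Results.MP_9a7beb_co.LineAboveMiddle

/-- `D` is an outer-connected dominating set of `H`: every vertex outside `D` has a neighbour in
`D`, and the vertices outside `D` induce a connected graph (the empty graph being connected). -/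
def IsOCDom {W : Type} (H : SimpleGraph W) (D : Finset W) : Prop :=
  (∀ v, v ∉ D → ∃ u ∈ D, H.Adj v u) ∧ (H.induce {v | v ∉ D}).Preconnected

/-- The outer-connected domination number. -/
noncomputable def ocDomNum {W : Type} (H : SimpleGraph W) : ℕ :=
  sInf {k | ∃ D : Finset W, IsOCDom H D ∧ D.card = k}

/-- The middle graph of `G`. -/
def middleGraph {V : Type} (G : SimpleGraph V) : SimpleGraph (V ⊕ G.edgeSet) where
  Adj a b := match a, b with
    | .inl _, .inl _ => False
    | .inl v, .inr e => v ∈ e.1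
    | .inr e, .inl v => v ∈ e.1
    | .inr e, .inr f => e ≠ f ∧ ∃ v, v ∈ e.1 ∧ v ∈ f.1
  symm := ⟨fun a b h => by
    rcases a with a | a <;> rcases b with b | b
    · exact h
    · exact h
    · exact h
    · exact ⟨h.1.symm, h.2.imp fun v hv => ⟨hv.2, hv.1⟩⟩⟩
  loopless := ⟨fun a h => by
    rcases a with a | a
    · exact h
    · exact h.1 rfl⟩

/-- The counterexample. -/
def G : SimpleGraph (Fin 10) where
  Adj a b := a ≠ b ∧ ((a < 4 ∧ b < 4) ∨ (6 ≤ a ∧ 6 ≤ b) ∨ (a = 0 ∧ b = 4) ∨ (a = 4 ∧ b = 0) ∨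
    (a = 4 ∧ b = 5) ∨ (a = 5 ∧ b = 4) ∨ (a = 5 ∧ b = 6) ∨ (a = 6 ∧ b = 5))
  symm := ⟨by decide⟩
  loopless := ⟨by decide⟩

instance : DecidableRel G.Adj := fun a b => by unfold G; infer_instance

instance : DecidableRel (middleGraph G).Adj := fun a b =>
  match a, b with
  | .inl _, .inl _ => isFalse (fun h => h)
  | .inl v, .inr e => inferInstanceAs (Decidable (v ∈ e.1))
  | .inr e, .inl v => inferInstanceAs (Decidable (v ∈ e.1))
  | .inr e, .inr f => inferInstanceAs (Decidable (e ≠ f ∧ ∃ v, v ∈ e.1 ∧ v ∈ f.1))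

/-- The edge `ab`. -/
def ed (a b : Fin 10) (h : G.Adj a b) : G.edgeSet := ⟨s(a, b), h⟩

/-- An outer-connected dominating set of the middle graph. -/
def D₀ : Finset (Fin 10 ⊕ G.edgeSet) :=
  {.inl 4, .inl 5, .inr (ed 0 1 (by decide)), .inr (ed 2 3 (by decide)),
    .inr (ed 6 7 (by decide)), .inr (ed 8 9 (by decide))}

/-- An ordering of the remaining elements. -/
def rank : Fin 10 ⊕ G.edgeSet → ℕ
  | .inl v => ![0, 4, 2, 2, 9, 9, 4, 8, 6, 6] v
  | .inr e =>
    if e.1 = s(0, 2) ∨ e.1 = s(0, 3) ∨ e.1 = s(0, 4) then 1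
    else if e.1 = s(4, 5) then 2
    else if e.1 = s(1, 2) ∨ e.1 = s(1, 3) ∨ e.1 = s(5, 6) then 3
    else if e.1 = s(6, 8) ∨ e.1 = s(6, 9) then 5
    else if e.1 = s(7, 8) ∨ e.1 = s(7, 9) then 7
    else 9

theorem D₀_dom : ∀ v, v ∉ D₀ → ∃ u ∈ D₀, (middleGraph G).Adj v u := by decide +kernel

theorem D₀_rank : ∀ v, v ∉ D₀ → v = .inl 0 ∨
    ∃ u, u ∉ D₀ ∧ rank u < rank v ∧ (middleGraph G).Adj v u := by decide +kernel

theorem D₀_card : D₀.card = 6 := by decide +kernel

theorem D₀_ocDom : IsOCDom (middleGraph G) D₀ := by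
  refine ⟨D₀_dom, ?_⟩
  have h0 : (Sum.inl 0 : Fin 10 ⊕ G.edgeSet) ∉ D₀ := by decide +kernel
  have key : ∀ k : ℕ, ∀ v : {v | v ∉ D₀}, rank v.1 = k →
      ((middleGraph G).induce {v | v ∉ D₀}).Reachable v ⟨.inl 0, h0⟩ := by
    intro k
    induction k using Nat.strong_induction_on with
    | _ k ih =>
      rintro ⟨v, hv⟩ hk
      rcases D₀_rank v hv with h | ⟨u, hu, hr, hadj⟩
      · subst h; exact SimpleGraph.Reachable.refl _
      · have h1 : ((middleGraph G).induce {v | v ∉ D₀}).Adj ⟨v, hv⟩ ⟨u, hu⟩ := hadj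
        exact h1.reachable.trans (ih (rank u) (hk ▸ hr) ⟨u, hu⟩ rfl)
  intro u v
  exact (key _ u rfl).trans (key _ v rfl).symm

/-- The position of an edge: in the first `K₄`, on the path, in the second `K₄`. -/
def lev (e : G.edgeSet) : ℕ :=
  if e.1 = s(0, 4) then 1 else if e.1 = s(4, 5) then 2 else if e.1 = s(5, 6) then 3
  else if (∃ v : Fin 10, v < 4 ∧ v ∈ e.1) then 0 else 4

instance : DecidableRel G.lineGraph.Adj := fun _ _ =>
  decidable_of_iff _ SimpleGraph.lineGraph_adj_iff_exists.symm

theorem lev_adj : ∀ e f : G.edgeSet, G.lineGraph.Adj e f → lev f ≤ lev e + 1 := by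
  decide +kernel

theorem lev_unique : ∀ e f : G.edgeSet, lev e = lev f → (lev e = 1 ∨ lev e = 2 ∨ lev e = 3) →
    e = f := by decide +kernel

theorem near_middle : ∀ f : G.edgeSet, G.lineGraph.Adj (ed 4 5 (by decide)) f →
    lev f = 1 ∨ lev f = 3 := by decide +kernel

theorem lev_middle : lev (ed 4 5 (by decide)) = 2 := by decide +kernel

theorem card_zero : (Finset.univ.filter (fun e : G.edgeSet => lev e = 0)).card = 6 := by
  decide +kernel

theorem card_four : (Finset.univ.filter (fun e : G.edgeSet => lev e = 4)).card = 6 := by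
  decide +kernel

/-- Every outer-connected dominating set of the line graph has at least seven elements. -/
theorem line_lower (D : Finset G.edgeSet) (hD : IsOCDom G.lineGraph D) : 7 ≤ D.card := by
  by_contra hlt
  rw [not_le] at hlt
  obtain ⟨hdom, hconn⟩ := hD
  -- some edge of the path belongs to `D`
  obtain ⟨m, hm, hlev⟩ : ∃ m ∈ D, lev m = 1 ∨ lev m = 2 ∨ lev m = 3 := by
    by_cases h : ed 4 5 (by decide) ∈ D
    · exact ⟨_, h, Or.inr (Or.inl lev_middle)⟩
    · obtain ⟨u, hu, hadj⟩ := hdom _ h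
      exact ⟨u, hu, by rcases near_middle u hadj with h | h <;> omega⟩
  -- both copies of `K₄` have an edge outside `D`
  have hex : ∀ j : ℕ, (j = 0 ∨ j = 4) →
      (Finset.univ.filter (fun e : G.edgeSet => lev e = j)).card = 6 → ∃ a, a ∉ D ∧ lev a = j := by
    intro j hj hc
    by_contra hno
    push Not at hno
    have hsub : insert m (Finset.univ.filter (fun e : G.edgeSet => lev e = j)) ⊆ D := by
      intro x hx
      rw [Finset.mem_insert] at hx
      rcases hx with rfl | hx
      · exact hm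
      · by_contra hxD
        exact hno x hxD (Finset.mem_filter.1 hx).2
    have hcard := Finset.card_le_card hsub
    rw [Finset.card_insert_of_notMem (by
      rw [Finset.mem_filter]; rintro ⟨_, h⟩; omega), hc] at hcard
    omega
  obtain ⟨a, ha, hla⟩ := hex 0 (Or.inl rfl) card_zero
  obtain ⟨b, hb, hlb⟩ := hex 4 (Or.inr rfl) card_four
  obtain ⟨w⟩ := hconn ⟨a, ha⟩ ⟨b, hb⟩
  have key : ∀ (x y : {v | v ∉ D}), (G.lineGraph.induce {v | v ∉ D}).Walk x y →
      lev x.1 < lev m → lev y.1 < lev m := by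
    intro x y w
    induction w with
    | nil => exact fun h => h
    | cons hadj _ ih =>
      intro h
      apply ih
      rename_i x z y _
      have h1 := lev_adj _ _ hadj
      have h2 : lev z.1 ≠ lev m := by
        intro he
        have := lev_unique _ _ he (by rw [he]; exact hlev)
        exact z.2 (this ▸ hm)
      have h3 : lev z.1 ≤ lev x.1 + 1 := h1
      omega
  have h1 := key _ _ w (by change lev a < lev m; omega)
  change lev b < lev m at h1
  omega

/-- There is a connected graph `G`, with 10 vertices, such that the outer-connected domination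
number of the line graph of `G` is larger than that of the middle graph of `G`. -/
theorem result : ∃ G : SimpleGraph (Fin 10), G.Connected ∧
    ocDomNum (middleGraph G) ≤ 6 ∧ 7 ≤ ocDomNum G.lineGraph := by
  refine ⟨G, ?_, Nat.sInf_le ⟨D₀, D₀_ocDom, D₀_card⟩, ?_⟩
  · exact Q106.FinConn.connected_of_lt_nbr G (by decide +kernel)
  · have huniv : IsOCDom G.lineGraph Finset.univ := by
      refine ⟨fun v hv => absurd (Finset.mem_univ v) hv, fun u => absurd (Finset.mem_univ u.1) u.2⟩
    obtain ⟨D, hD, hc⟩ := Nat.sInf_mem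
      (s := {k | ∃ D : Finset G.edgeSet, IsOCDom G.lineGraph D ∧ D.card = k})
      ⟨_, Finset.univ, huniv, rfl⟩
    unfold ocDomNum
    rw [← hc]
    exact line_lower D hD

end Pool.Agent.Results.MP_9a7beb_co.LineAboveMiddle
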